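import Pool.Agent.Helper58.FLP.BDef

/-!
# FLP-B6a: weights and cocones
-/

open CategoryTheory MonoidalCategory CartesianMonoidalCategory Opposite

set_option autoImplicit false

namespace Pool.Agent.Helper55.FLP

open FL (SP MpS HoEq Th Wr)
open _root_.FLP

noncomputable section

variable {J : Type} [SmallCategory J]

/-! ### The weights -/

lemma under_heq {j : J} {X X' Y Y' : Under j} (hX : X = X') (hY : Y = Y') (f : X ⟶ Y)
    (g : X' ⟶ Y') (h : HEq f.right g.right) : HEq f g := by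
  subst hX hY
  exact heq_of_eq (Under.UnderMorphism.ext (eq_of_heq h))

/-- From chains in the under category to the simplices of `FL.W J`. -/
def toWS {j : J} {k : SimplexCategory} (F : Fin (k.len + 1) ⥤ Under j) : FL.WS j k where
  σ :=
    { obj := fun i => (F.obj i).right
      map := fun i i' h => (F.map (homOfLE h)).right
      map_id := fun i => by
        exact congrArg Under.Hom.right (F.map_id i)
      map_comp := fun i i' i'' h h' => by
        exact congrArg Under.Hom.right (F.map_comp (homOfLE h) (homOfLE h')).symm }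
  u := (F.obj 0).hom

/-- From the simplices of `FL.W J` to chains in the under category. -/
def ofWS {j : J} {k : SimplexCategory} (w : FL.WS j k) : Fin (k.len + 1) ⥤ Under j where
  obj i := Under.mk (w.u ≫ w.σ.map 0 i (Fin.zero_le _))
  map {i i'} f := Under.homMk (w.σ.map i i' (leOfHom f)) (by
    show (w.u ≫ w.σ.map 0 i (Fin.zero_le _)) ≫ w.σ.map i i' (leOfHom f) =
      w.u ≫ w.σ.map 0 i' (Fin.zero_le _)
    rw [Category.assoc, w.σ.map_comp])
  map_id i := Under.UnderMorphism.ext (w.σ.map_id i)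
  map_comp f g := Under.UnderMorphism.ext (w.σ.map_comp _ _ _ _ _).symm

lemma toWS_ofWS {j : J} {k : SimplexCategory} (w : FL.WS j k) : toWS (ofWS w) = w := by
  obtain ⟨σ, u⟩ := w
  refine congrArg (FL.WS.mk σ) ?_
  show u ≫ σ.map 0 0 _ = u
  rw [σ.map_id, Category.comp_id]

lemma ofWS_toWS {j : J} {k : SimplexCategory} (F : Fin (k.len + 1) ⥤ Under j) :
    ofWS (toWS F) = F := by
  have hobj : ∀ i, (ofWS (toWS F)).obj i = F.obj i := by
    intro i
    show Under.mk ((F.obj 0).hom ≫ (F.map (homOfLE (Fin.zero_le i))).right) = F.obj i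
    rw [Under.w]
    rfl
  refine Functor.hext hobj fun i i' f => ?_
  exact under_heq (hobj i) (hobj i') _ _ (heq_of_eq rfl)

lemma toWS_res {j : J} {k l : SimplexCategory} (α : l ⟶ k) (F : Fin (k.len + 1) ⥤ Under j) :
    toWS (k := l) ((SimplexCategory.toCat.map α).toFunctor ⋙ F) = (toWS F).res α := by
  refine congrArg (FL.WS.mk _) ?_
  show (F.obj (α.toOrderHom 0)).hom = (F.obj 0).hom ≫ (F.map (homOfLE (Fin.zero_le _))).right
  rw [Under.w]

theorem exists_wtIso : Nonempty (PSh.Wt J ≅ FL.W J) := by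
  refine ⟨NatIso.ofComponents (fun j => NatIso.ofComponents (fun k =>
    { hom := ↾ fun (F : Fin (k.unop.len + 1) ⥤ Under j.unop) => (toWS F : FL.WS j.unop k.unop)
      inv := ↾ fun (w : FL.WS j.unop k.unop) =>
        (ofWS w : Fin (k.unop.len + 1) ⥤ Under j.unop)
      hom_inv_id := ConcreteCategory.hom_ext _ _ fun F => ofWS_toWS F
      inv_hom_id := ConcreteCategory.hom_ext _ _ fun w => toWS_ofWS w }) ?_) ?_⟩
  · intro k l α
    exact ConcreteCategory.hom_ext _ _ fun F => toWS_res α.unop F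
  · intro j j' f
    exact NatTrans.ext (funext fun k => ConcreteCategory.hom_ext _ _ fun F => rfl)

/-! ### Cocones -/

variable {n : ℕ} {p : PSh.Diag n J} {K : FLP.CatN n}

section Bwd

variable (e : PSh.Wt J ≅ FL.W J) (Λ : PSh.Cocone p K)

/-- The simplex of the mapping space attached by `Λ` to a simplex of `FL.W J`. -/
def lw {j : J} {k : SimplexCategory} (w : FL.WS j k) : MpS (p.p.obj j) K.X k :=
  ofMx (X := p.p.obj j) (Y := K.X)
    ((Λ.app (op j)).app (op k) ((e.inv.app (op j)).app (op k) w))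

lemma lw_left {j j' : J} (u : j ⟶ j') {k : SimplexCategory} (w : FL.WS j' k) :
    lw e Λ (⟨w.σ, u ≫ w.u⟩ : FL.WS j k) = (MpS.ofHom k (p.p.map u)).comp (lw e Λ w) := by
  have h1 : (e.inv.app (op j)).app (op k) (⟨w.σ, u ≫ w.u⟩ : FL.WS j k) =
      ((PSh.Wt J).map u.op).app (op k) ((e.inv.app (op j')).app (op k) w) :=
    ConcreteCategory.congr_hom (NatTrans.congr_app (e.inv.naturality u.op) (op k)) w
  have h2 : (Λ.app (op j)).app (op k)
      (((PSh.Wt J).map u.op).app (op k) ((e.inv.app (op j')).app (op k) w)) =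
      (Mx.of (p.p.map u) k).comp ((Λ.app (op j')).app (op k)
        ((e.inv.app (op j')).app (op k) w) : (p.at j').Mx K k) :=
    ConcreteCategory.congr_hom (NatTrans.congr_app (Λ.naturality u.op) (op k))
      ((e.inv.app (op j')).app (op k) w)
  have h3 := ofMx_comp (X := p.p.obj j) (Y := p.p.obj j') (Z := K.X) (Mx.of (p.p.map u) k)
    ((Λ.app (op j')).app (op k) ((e.inv.app (op j')).app (op k) w) : (p.at j').Mx K k)
  refine Eq.trans ?_ h3
  exact congrArg (ofMx (X := p.p.obj j) (Y := K.X)) ((congrArg _ h1).trans h2)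

lemma lw_right {j : J} {k l : SimplexCategory} (α : l ⟶ k) (w : FL.WS j k) :
    lw e Λ (w.res α) = (lw e Λ w).res α := by
  have h1 : (e.inv.app (op j)).app (op l) (w.res α) =
      ((PSh.Wt J).obj (op j)).map α.op ((e.inv.app (op j)).app (op k) w) :=
    ConcreteCategory.congr_hom ((e.inv.app (op j)).naturality α.op) w
  have h2 : (Λ.app (op j)).app (op l)
      (((PSh.Wt J).obj (op j)).map α.op ((e.inv.app (op j)).app (op k) w)) =
      Mx.res α ((Λ.app (op j)).app (op k)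
        ((e.inv.app (op j)).app (op k) w) : (p.at j).Mx K k) :=
    ConcreteCategory.congr_hom ((Λ.app (op j)).naturality α.op)
      ((e.inv.app (op j)).app (op k) w)
  have h3 := ofMx_res (X := p.p.obj j) (Y := K.X) α
    ((Λ.app (op j)).app (op k) ((e.inv.app (op j)).app (op k) w) : (p.at j).Mx K k)
  refine Eq.trans ?_ h3
  exact congrArg (ofMx (X := p.p.obj j) (Y := K.X)) ((congrArg _ h1).trans h2)

lemma lw_nat {a : (Th n)ᵒᵖ} {m l : SimplexCategoryᵒᵖ} (g : m ⟶ l) (σ : FL.Chain J m.unop)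
    (y : ((p.p.obj (σ.obj 0)).obj a).obj m) :
    (lw e Λ (⟨σ.res g.unop, 𝟙 _⟩ : FL.WS ((σ.res g.unop).obj 0) l.unop)).app a l (𝟙 _)
      (((p.p.map (σ.zeroTo g.unop)).app a).app l (((p.p.obj (σ.obj 0)).obj a).map g y)) =
    (K.X.obj a).map g ((lw e Λ (⟨σ, 𝟙 _⟩ : FL.WS (σ.obj 0) m.unop)).app a m (𝟙 _) y) := by
  have h1 := MpS.nat_right (lw e Λ (⟨σ, 𝟙 _⟩ : FL.WS (σ.obj 0) m.unop)) a g (𝟙 _) y
  refine Eq.trans ?_ h1
  have h2 := lw_right e Λ g.unop (⟨σ, 𝟙 _⟩ : FL.WS (σ.obj 0) m.unop)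
  have h3 := lw_left e Λ (σ.zeroTo g.unop)
    (⟨σ.res g.unop, 𝟙 _⟩ : FL.WS ((σ.res g.unop).obj 0) l.unop)
  have h4 : (FL.WS.res (⟨σ, 𝟙 _⟩ : FL.WS (σ.obj 0) m.unop) g.unop) =
      ⟨σ.res g.unop, σ.zeroTo g.unop ≫ 𝟙 _⟩ :=
    congrArg (FL.WS.mk (σ.res g.unop)) ((Category.id_comp _).trans (Category.comp_id _).symm)
  have h5 : MpS.res g.unop (lw e Λ (⟨σ, 𝟙 _⟩ : FL.WS (σ.obj 0) m.unop)) =
      (MpS.ofHom l.unop (p.p.map (σ.zeroTo g.unop))).comp
        (lw e Λ (⟨σ.res g.unop, 𝟙 _⟩ : FL.WS ((σ.res g.unop).obj 0) l.unop)) :=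
    h2.symm.trans ((congrArg (lw e Λ) h4).trans h3)
  have h6 := congrArg (fun χ : MpS (p.p.obj (σ.obj 0)) K.X l.unop =>
    χ.app a l (𝟙 _) (((p.p.obj (σ.obj 0)).obj a).map g y)) h5
  refine Eq.trans h6.symm ?_
  refine congrArg (fun r => (lw e Λ (⟨σ, 𝟙 _⟩ : FL.WS (σ.obj 0) m.unop)).app a l r
    (((p.p.obj (σ.obj 0)).obj a).map g y)) ?_
  exact (Category.id_comp _).trans (Category.comp_id _).symm

/-- The map `hocolim p ⟶ K` of a coherent cocone. -/
def bwd : FL.Hoco p.p ⟶ K.X where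
  app a :=
    { app := fun k => ↾ fun (w : FL.HS p.p a k) =>
        (lw e Λ (⟨w.σ, 𝟙 _⟩ : FL.WS (w.σ.obj 0) k.unop)).app a k (𝟙 _) w.x
      naturality := fun m l g => ConcreteCategory.hom_ext _ _ fun (w : FL.HS p.p a m) =>
        lw_nat e Λ g w.σ w.x }
  naturality a b f := by
    refine NatTrans.ext (funext fun k => ConcreteCategory.hom_ext _ _
      fun (w : FL.HS p.p a k) => ?_)
    exact MpS.nat_left (lw e Λ (⟨w.σ, 𝟙 _⟩ : FL.WS (w.σ.obj 0) k.unop)) f k (𝟙 _) w.x

lemma coneS_bwd {j : J} {k : SimplexCategory} (w : FL.WS j k) :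
    FL.coneS (bwd e Λ) w = lw e Λ w := by
  refine MpS.ext ?_
  funext a m t y
  obtain ⟨σ, u⟩ := w
  have h3 := lw_left e Λ (u ≫ σ.zeroTo t)
    (⟨σ.res t, 𝟙 _⟩ : FL.WS ((σ.res t).obj 0) m.unop)
  have h2 := lw_right e Λ t (⟨σ, u⟩ : FL.WS j k)
  have h4 : (FL.WS.res (⟨σ, u⟩ : FL.WS j k) t) =
      ⟨σ.res t, (u ≫ σ.zeroTo t) ≫ 𝟙 _⟩ :=
    congrArg (FL.WS.mk (σ.res t)) (Category.comp_id _).symm
  have h5 := h2.symm.trans ((congrArg (lw e Λ) h4).trans h3)
  have h6 := congrArg (fun χ : MpS (p.p.obj j) K.X m.unop => χ.app a m (𝟙 _) y) h5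
  refine Eq.trans h6.symm ?_
  exact congrArg (fun r => (lw e Λ (⟨σ, u⟩ : FL.WS j k)).app a m r y) (Category.id_comp _)

end Bwd

section Fwd

variable (Λ' : FL.Hoco p.p ⟶ K.X)

lemma coneS_left {j j' : J} (u : j ⟶ j') {k : SimplexCategory} (w : FL.WS j' k) :
    FL.coneS Λ' (⟨w.σ, u ≫ w.u⟩ : FL.WS j k) =
      (MpS.ofHom k (p.p.map u)).comp (FL.coneS Λ' w) := by
  refine MpS.ext ?_
  funext a m t y
  refine congrArg ((Λ'.app a).app m) (congrArg (FL.HS.mk (FL.Chain.res w.σ t)) ?_)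
  refine Eq.trans ?_ (FL.diag_comp p.p u (w.u ≫ FL.Chain.zeroTo w.σ t) y)
  exact congrArg (fun f => ((p.p.map f).app a).app m y)
    (Category.assoc u w.u (FL.Chain.zeroTo w.σ t))

lemma coneS_right {j : J} {k l : SimplexCategory} (α : l ⟶ k) (w : FL.WS j k) :
    FL.coneS Λ' (w.res α) = (FL.coneS Λ' w).res α := by
  refine MpS.ext ?_
  funext a m t y
  refine congrArg ((Λ'.app a).app m) (congrArg (FL.HS.mk (FL.Chain.res w.σ (t ≫ α))) ?_)
  refine congrArg (fun f => ((p.p.map f).app a).app m y) ?_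
  refine (Category.assoc w.u (FL.Chain.zeroTo w.σ α) _).trans ?_
  exact congrArg (w.u ≫ ·) (w.σ.map_comp _ _ _ _ _)

/-- The coherent cocone of a map `hocolim p ⟶ K`. -/
def fwd (e : PSh.Wt J ≅ FL.W J) : PSh.Cocone p K where
  app j :=
    { app := fun k => ↾ fun w =>
        (toMx (X := p.p.obj j.unop) (Y := K.X)
          (FL.coneS Λ' ((e.hom.app j).app k w : FL.WS j.unop k.unop)) :
          (p.at j.unop).Mx K k.unop)
      naturality := fun k l g => ConcreteCategory.hom_ext _ _ fun w => by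
        have h1 : (e.hom.app j).app l (((PSh.Wt J).obj j).map g w) =
            FL.WS.res ((e.hom.app j).app k w : FL.WS j.unop k.unop) g.unop :=
          ConcreteCategory.congr_hom ((e.hom.app j).naturality g) w
        exact congrArg (toMx (X := p.p.obj j.unop) (Y := K.X))
          ((congrArg (FL.coneS Λ') h1).trans
            (coneS_right Λ' g.unop ((e.hom.app j).app k w : FL.WS j.unop k.unop))) }
  naturality j j' f := by
    refine NatTrans.ext (funext fun k => ConcreteCategory.hom_ext _ _ fun w => ?_)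
    have h1 : (e.hom.app j').app k (((PSh.Wt J).map f).app k w) =
        (⟨((e.hom.app j).app k w : FL.WS j.unop k.unop).σ,
          f.unop ≫ ((e.hom.app j).app k w : FL.WS j.unop k.unop).u⟩ :
            FL.WS j'.unop k.unop) :=
      ConcreteCategory.congr_hom (NatTrans.congr_app (e.hom.naturality f) k) w
    exact congrArg (toMx (X := p.p.obj j'.unop) (Y := K.X))
      ((congrArg (FL.coneS Λ') h1).trans
        (coneS_left Λ' f.unop ((e.hom.app j).app k w : FL.WS j.unop k.unop)))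

end Fwd

theorem exists_corr (e : PSh.Wt J ≅ FL.W J) (p : PSh.Diag n J) (K : FLP.CatN n) :
    (∀ Λ : PSh.Cocone p K, ∃ Λ' : FL.Hoco p.p ⟶ K.X, Corr e Λ Λ') ∧
    ∀ Λ' : FL.Hoco p.p ⟶ K.X, ∃ Λ : PSh.Cocone p K, Corr e Λ Λ' := by
  refine ⟨fun Λ => ⟨bwd e Λ, fun j k w => coneS_bwd e Λ w⟩, fun Λ' => ⟨fwd Λ' e, ?_⟩⟩
  intro j k w
  have h1 : (e.hom.app (op j)).app (op k) ((e.inv.app (op j)).app (op k) w) = w :=
    ConcreteCategory.congr_hom (NatTrans.congr_app (NatTrans.congr_app e.inv_hom_id (op j))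
      (op k)) w
  have h2 := ofMx_toMx (X := p.p.obj j) (Y := K.X) (m := k)
    (FL.coneS Λ' ((e.hom.app (op j)).app (op k) ((e.inv.app (op j)).app (op k) w) :
      FL.WS j k))
  exact (congrArg (FL.coneS Λ') h1).symm.trans h2.symm

end

end Pool.Agent.Helper55.FLP
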